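import Pool.Agent.H22.Recip.Main

/-!
Metric surfaces of locally finite Hausdorff 2-measure whose lower area density is finite at every
point are reciprocal.

Supporting files (all in `Pool/Agent/H22/Recip`): Poincaré–Miranda theorem in the square, limits of
chains, the universal lower bound of (R1), Vitali coverings and a maximal function, the minimal norm
element of the closure of the admissible functions, the key estimate on the dual curves, (R2).
-/

set_option autoImplicit false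

open MeasureTheory Measure Set Metric Filter Topology
open scoped ENNReal

namespace Pool.Agent.Results.MP_f6a415_an.FiniteLowerDensity

universe u

section Defs

variable (X : Type u) [MetricSpace X] [MeasurableSpace X] [BorelSpace X]

/-- Hausdorff 2-measure on `X`, normalised so that it equals Lebesgue measure on the Euclidean
plane: `π/4` times Mathlib's `μH[2]`, whose gauge is `(diam)²`. -/
noncomputable def H2 : Measure X := ENNReal.ofReal (Real.pi / 4) • (μH[2] : Measure X)

variable {X}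

/-- The family `Γ(E, F; S)` of rectifiable curves in `S` joining `E` and `F`.  A rectifiable curve of
length `L` is given by its arc-length parametrisation `γ : [0, L] → X` (the values of `γ` outside
`[0, L]` are irrelevant); it is oriented so that it starts in `E` and ends in `F`. -/
def Joining (E F S : Set X) : Set (ℝ × (ℝ → X)) :=
  {c | 0 ≤ c.1 ∧ HasUnitSpeedOn c.2 (Icc 0 c.1) ∧ MapsTo c.2 (Icc 0 c.1) S ∧ c.2 0 ∈ E ∧ c.2 c.1 ∈ F}

/-- `ρ : X → [0, ∞]` is admissible for `Γ`: it is Borel and `∫_γ ρ ds ≥ 1` for every `γ ∈ Γ`. -/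
def Admissible (Γ : Set (ℝ × (ℝ → X))) (ρ : X → ℝ≥0∞) : Prop :=
  Measurable ρ ∧ ∀ c ∈ Γ, 1 ≤ ∫⁻ s in Icc 0 c.1, ρ (c.2 s)

/-- The modulus `Mod₂ Γ`. -/
noncomputable def Mod2 (Γ : Set (ℝ × (ℝ → X))) : ℝ≥0∞ :=
  ⨅ (ρ : X → ℝ≥0∞) (_ : Admissible Γ ρ), ∫⁻ x, ρ x ^ 2 ∂(H2 X)

variable (X)

/-- A quadrilateral in `X`: a closed Jordan domain with four marked boundary points in cyclic order,
given as a topological embedding of the closed unit square `[0,1]²` whose marked points are the
images of the corners `(0,0), (1,0), (1,1), (0,1)`. -/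
structure Quadrilateral where
  /-- the parametrisation of the closed Jordan domain by the square -/
  toFun : ℝ × ℝ → X
  cont : ContinuousOn toFun (Icc 0 1 ×ˢ Icc 0 1)
  inj : InjOn toFun (Icc 0 1 ×ˢ Icc 0 1)

variable {X}

namespace Quadrilateral

/-- the closed Jordan domain `Q` -/
def carrier (q : Quadrilateral X) : Set X := q.toFun '' (Icc 0 1 ×ˢ Icc 0 1)
/-- boundary arc `[ζ₁, ζ₂]` -/
def arc₁ (q : Quadrilateral X) : Set X := q.toFun '' (Icc 0 1 ×ˢ {0})
/-- boundary arc `[ζ₂, ζ₃]` -/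
def arc₂ (q : Quadrilateral X) : Set X := q.toFun '' ({1} ×ˢ Icc 0 1)
/-- boundary arc `[ζ₃, ζ₄]` -/
def arc₃ (q : Quadrilateral X) : Set X := q.toFun '' (Icc 0 1 ×ˢ {1})
/-- boundary arc `[ζ₄, ζ₁]` -/
def arc₄ (q : Quadrilateral X) : Set X := q.toFun '' ({0} ×ˢ Icc 0 1)

/-- `Γ(Q)`: curves in `Q` joining `[ζ₁, ζ₂]` and `[ζ₃, ζ₄]` -/
def Γ (q : Quadrilateral X) : Set (ℝ × (ℝ → X)) := Joining q.arc₁ q.arc₃ q.carrier
/-- `Γ*(Q)`: curves in `Q` joining `[ζ₂, ζ₃]` and `[ζ₄, ζ₁]` -/
def Γstar (q : Quadrilateral X) : Set (ℝ × (ℝ → X)) := Joining q.arc₂ q.arc₄ q.carrier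

end Quadrilateral

variable (X)

/-- (R1) with constant `κ`: `κ⁻¹ ≤ Mod₂ Γ(Q) · Mod₂ Γ*(Q) ≤ κ` for every quadrilateral `Q`. -/
def R1 (κ : ℝ) : Prop := ∀ q : Quadrilateral X,
  ENNReal.ofReal κ⁻¹ ≤ Mod2 q.Γ * Mod2 q.Γstar ∧ Mod2 q.Γ * Mod2 q.Γstar ≤ ENNReal.ofReal κ

/-- (R2): `Mod₂ Γ(closedBall a r, X \ ball a R; X) → 0` as `r → 0⁺`, for every ball `ball a R`. -/
def R2 : Prop := ∀ (a : X) (R : ℝ), 0 < R →
  Tendsto (fun r : ℝ => Mod2 (Joining (closedBall a r) (ball a R)ᶜ (univ : Set X))) (𝓝[>] 0) (𝓝 0)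

/-- `X` is reciprocal. -/
def Reciprocal : Prop := (∃ κ : ℝ, 1 ≤ κ ∧ R1 X κ) ∧ R2 X

/-- the density ratio `H²(B(x,r)) / (π r²)` -/
noncomputable def ratio (x : X) (r : ℝ) : ℝ≥0∞ := H2 X (ball x r) / ENNReal.ofReal (Real.pi * r ^ 2)

/-- condition (1): the upper density is finite at every point -/
def Cond1 : Prop := ∀ x : X, limsup (ratio X x) (𝓝[>] 0) < ∞
/-- condition (2): the lower density is bounded by one constant at all points -/
def Cond2 : Prop := ∃ C : ℝ, ∀ x : X, liminf (ratio X x) (𝓝[>] 0) ≤ ENNReal.ofReal C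
/-- condition (3): the lower density is finite at every point -/
def Cond3 : Prop := ∀ x : X, liminf (ratio X x) (𝓝[>] 0) < ∞

end Defs

open Pool.Agent.H22 in
/-- **Answer to Q1.**  Let `X` be a metric surface (a metric space that is a topological 2-manifold,
boundary allowed) of locally finite Hausdorff 2-measure.  Each of the conditions (1), (2), (3)
implies that `X` is reciprocal. -/
theorem result (X : Type u) [MetricSpace X] [ChartedSpace (EuclideanHalfSpace 2) X]
    [MeasurableSpace X] [BorelSpace X] [IsLocallyFiniteMeasure (H2 X)] :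
    (Cond1 X → Reciprocal X) ∧ (Cond2 X → Reciprocal X) ∧ (Cond3 X → Reciprocal X) := by
  have hloc : IsLocallyFiniteMeasure (Recip.H2 X) := ‹IsLocallyFiniteMeasure (H2 X)›
  have key : Recip.Cond3 X → Reciprocal X := by
    intro h
    obtain ⟨⟨κ, hκ, h1⟩, h2⟩ := Recip.reciprocal_of_cond3 h
    exact ⟨⟨κ, hκ, fun q => h1 ⟨q.toFun, q.cont, q.inj⟩⟩, h2⟩
  exact ⟨fun h => key (Recip.Cond1.cond3 h), fun h => key (Recip.Cond2.cond3 h), fun h => key h⟩

end Pool.Agent.Results.MP_f6a415_an.FiniteLowerDensity
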